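import Pool.Agent.Helper27.MQ.Fin

/-!
# Morrey's problem for `W(F) = g(F β, det F) + Q(F) + L(F)` on real `2 × 2` matrices

`β` is a vector, `g` an arbitrary function of the vector `F β` (for instance of the first column of
`F`, a partial derivative of a map) and of the determinant, `Q` an arbitrary quadratic form and `L`
an arbitrary linear form of the matrix.  Every rank-one convex function of this form is quasiconvex.

Proof: at every `v ≠ 0` the function `g(v, ·)` is convex, because the determinant takes arbitrary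
values at the ends of short segments in rank-one directions along which `F β` is nearly constant.
For a slope `l` of `g(v₀, ·)` the partial infimum `h(v) = inf (g(v, δ) - l δ)` over `δ` satisfies,
along generic segments, the same inequalities as `g`, it is upper semicontinuous, and after a change
of its value at the origin `h(F β) + Q(F)` is rank-one convex.  So `W` is a supremum of functions
`h(F β) + l det F + Q(F) + L(F)` which are known to be quasiconvex.
-/

set_option autoImplicit false

open Matrix

namespace Pool.Agent.Results.MP_515557_an.ColumnAndDeterminant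

/-- Convexity on the segments in rank-one directions. -/
def RankOneConvex (W : Matrix (Fin 2) (Fin 2) ℝ → ℝ) : Prop :=
  ∀ F H : Matrix (Fin 2) (Fin 2) ℝ, H.rank = 1 → ∀ t : ℝ, 0 ≤ t → t ≤ 1 →
    W ((1 - t) • F + t • (F + H)) ≤ (1 - t) * W F + t * W (F + H)

/-- The inequality of quasiconvexity at all matrices, for all bounded open sets `Ω` and all
Lipschitz maps `ϑ` vanishing off `Ω`. -/
def Quasiconvex (W : Matrix (Fin 2) (Fin 2) ℝ → ℝ) : Prop :=
  ∀ F₀ : Matrix (Fin 2) (Fin 2) ℝ, ∀ Ω : Set (Fin 2 → ℝ),
    IsOpen Ω → Bornology.IsBounded Ω →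
    ∀ ϑ : (Fin 2 → ℝ) → (Fin 2 → ℝ), (∃ K, LipschitzWith K ϑ) →
      (∀ x, x ∉ Ω → ϑ x = 0) →
      W F₀ * (MeasureTheory.volume Ω).toReal ≤
        ∫ x in Ω, W (F₀ + LinearMap.toMatrix'
          ((fderiv ℝ ϑ x : (Fin 2 → ℝ) →L[ℝ] (Fin 2 → ℝ)) :
            (Fin 2 → ℝ) →ₗ[ℝ] (Fin 2 → ℝ)))

/-- Every rank-one convex function `W(F) = g(F β, det F) + Q(F) + L(F)` of a real `2 × 2` matrix,
with an arbitrary function `g`, a quadratic form `Q` and a linear form `L`, is quasiconvex. -/
theorem result (β : Fin 2 → ℝ) (g : (Fin 2 → ℝ) → ℝ → ℝ)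
    (Q : QuadraticForm ℝ (Matrix (Fin 2) (Fin 2) ℝ)) (L : Matrix (Fin 2) (Fin 2) ℝ →ₗ[ℝ] ℝ)
    (hroc : RankOneConvex (fun F => g (F *ᵥ β) F.det + Q F + L F)) :
    Quasiconvex (fun F => g (F *ᵥ β) F.det + Q F + L F) :=
  Pool.Agent.Helper27.MQ.fin_coldet Q L β g hroc

end Pool.Agent.Results.MP_515557_an.ColumnAndDeterminant
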