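import Pool.Agent.Helper95.MQ.Ex
import Pool.Agent.Helper95.MQ.Two2

/-!
# Morrey's problem for functions of the diagonal plus functions of the antidiagonal

Let `W(F) = h(F₀₀, F₁₁) + g(F₀₁, F₁₀) + a F₀₀² + b F₁₁² + p F₀₁² + q F₁₀² + l det F` on the real
`2 × 2` matrices, where `h` and `g` are bilinear on the cells of rectangular grids of the plane (of
arbitrary widths, not necessarily the same grid), and `p q = a b`, for example
`h(F₀₀, F₁₁) + g(F₀₁, F₁₀) + c |F|² + l det F`; or `p q < a b` and the mixed second derivative of `g`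
oscillates at most by `8 √(p q)`, for example `g = 0`.  If `W` is rank-one convex then `W` is
quasiconvex.

In the criterion behind this `h` and `g` are arbitrary functions, convex in each variable: if
`p q ≤ a b` and the mixed derivatives satisfy `|g'' - σ| ≤ r`, `|h'' + σ| ≤ 2 √(a b) + 2 √(p q) - r`
in the sense of mixed differences, with `r ≤ 4 √(p q)`, then `W` is quasiconvex.  For functions which
are bilinear on the cells of grids the same conditions, without the bound of `r`, are equivalent to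
rank-one convexity; so the constants are sharp.

Proof: `W` is the sum of a function of the same form with `g = 0` and one with `h = 0`.  For the
first one the energy decreases along a heat flow with different coefficients for the two components
and for the two variables, `∂ₜ u_r = w_{r0} ∂₀² u_r + w_{r1} ∂₁² u_r`.  With `s = √a`, `t = √b`,
`m = √p`, `n = √q` the weights are `w₀₀ = (s t + 3 m n) s² n t`, `w₀₁ = (s t - m n) m s t²`,
`w₁₀ = (s t - m n) s² n t`, `w₁₁ = (s t + 3 m n) m s t²`; together with multiples of the null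
Lagrangians `det D² u₀` and `det D² u₁` the dissipation is a sum of squares exactly up to the bound
given by rank-one convexity.
-/

set_option autoImplicit false

open Matrix

namespace Pool.Agent.Results.MP_515557_an.DiagonalPlusAntidiagonal

/-- Convexity on the segments in rank-one directions. -/
def RankOneConvex (W : Matrix (Fin 2) (Fin 2) ℝ → ℝ) : Prop :=
  ∀ F H : Matrix (Fin 2) (Fin 2) ℝ, H.rank = 1 → ∀ t : ℝ, 0 ≤ t → t ≤ 1 →
    W ((1 - t) • F + t • (F + H)) ≤ (1 - t) * W F + t * W (F + H)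

/-- The inequality of quasiconvexity at all matrices, for all bounded open sets `Ω` and all
Lipschitz maps `ϑ` vanishing off `Ω`. -/
def Quasiconvex (W : Matrix (Fin 2) (Fin 2) ℝ → ℝ) : Prop :=
  ∀ F₀ : Matrix (Fin 2) (Fin 2) ℝ, ∀ Ω : Set (Fin 2 → ℝ),
    IsOpen Ω → Bornology.IsBounded Ω →
    ∀ ϑ : (Fin 2 → ℝ) → (Fin 2 → ℝ), (∃ K, LipschitzWith K ϑ) →
      (∀ x, x ∉ Ω → ϑ x = 0) →
      W F₀ * (MeasureTheory.volume Ω).toReal ≤
        ∫ x in Ω, W (F₀ + LinearMap.toMatrix'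
          ((fderiv ℝ ϑ x : (Fin 2 → ℝ) →L[ℝ] (Fin 2 → ℝ)) :
            (Fin 2 → ℝ) →ₗ[ℝ] (Fin 2 → ℝ)))

/-- `W(F) = P(F, det F)` for a convex function `P` with values in `ℝ ∪ {+∞}`. -/
def Polyconvex (W : Matrix (Fin 2) (Fin 2) ℝ → ℝ) : Prop :=
  ∃ P : Matrix (Fin 2) (Fin 2) ℝ × ℝ → EReal, (∀ z, P z ≠ ⊥) ∧
    (∀ z w : Matrix (Fin 2) (Fin 2) ℝ × ℝ, ∀ a b : ℝ, 0 ≤ a → 0 ≤ b → a + b = 1 →
      P (a • z + b • w) ≤ (a : EReal) * P z + (b : EReal) * P w) ∧
    ∀ F, P (F, F.det) = (W F : EReal)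

/-- The function
`h(F₀₀, F₁₁) + g(F₀₁, F₁₀) + a F₀₀² + b F₁₁² + p F₀₁² + q F₁₀² + l det F`. -/
def Energy (h g : ℝ → ℝ → ℝ) (a b p q l : ℝ) (F : Matrix (Fin 2) (Fin 2) ℝ) : ℝ :=
  h (F 0 0) (F 1 1) + g (F 0 1) (F 1 0)
    + (a * F 0 0 ^ 2 + b * F 1 1 ^ 2 + p * F 0 1 ^ 2 + q * F 1 0 ^ 2) + l * F.det

/-- The function `h` is convex in each variable. -/
def SepConvex (h : ℝ → ℝ → ℝ) : Prop :=
  (∀ y, ConvexOn ℝ Set.univ fun x => h x y) ∧ ∀ x, ConvexOn ℝ Set.univ fun y => h x y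

/-- The mixed differences of `h` differ from `σ s t` at most by `M |s t|`.  (For functions of class
`C²` this means that the mixed second derivative has values in `[σ - M, σ + M]`.) -/
def Mixed (σ M : ℝ) (h : ℝ → ℝ → ℝ) : Prop :=
  ∀ x y s t, |h (x + s) (y + t) - h (x + s) y - h x (y + t) + h x y - σ * (s * t)| ≤ M * |s * t|

/-- The function `h` is equal to a function `α + β x + γ y + δ x y` on each cell
`[u i, u (i + 1)] × [v j, v (j + 1)]` of a rectangular grid; the cells cover the plane. -/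
def GridBilinear (h : ℝ → ℝ → ℝ) : Prop :=
  ∃ u v : ℤ → ℝ, StrictMono u ∧ StrictMono v ∧
    (∀ x : ℝ, ∃ i : ℤ, x ∈ Set.Icc (u i) (u (i + 1))) ∧
    (∀ y : ℝ, ∃ j : ℤ, y ∈ Set.Icc (v j) (v (j + 1))) ∧
    ∀ i j : ℤ, ∃ α β γ δ : ℝ, ∀ x ∈ Set.Icc (u i) (u (i + 1)),
      ∀ y ∈ Set.Icc (v j) (v (j + 1)), h x y = α + β * x + γ * y + δ * (x * y)

/-- Let
`W(F) = h(F₀₀, F₁₁) + g(F₀₁, F₁₀) + a F₀₀² + b F₁₁² + p F₀₁² + q F₁₀² + l det F`.

(1) Let `h` and `g` be bilinear on the cells of rectangular grids and `p q ≤ a b`; if `p q < a b`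
suppose that the mixed differences of `g` differ from some `σ s t` at most by `4 √(p q) |s t|` (for
example `g = 0`).  If `W` is rank-one convex then `W` is quasiconvex.

(2) Some of these functions are rank-one convex and not polyconvex.

(3) For `h` and `g` bilinear on the cells of rectangular grids, `W` is rank-one convex if and only
if `a, b, p, q ≥ 0`, `h` and `g` are convex in each variable and there are `σ` and `r` such that the
mixed differences of `g` lie within `r |s t|` of `σ s t` and those of `h` within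
`(2 √(a b) + 2 √(p q) - r) |s t|` of `-σ s t`.

(4) For arbitrary `h` and `g` and `p q ≤ a b` the conditions of (3) and `r ≤ 4 √(p q)` imply that
`W` is quasiconvex. -/
theorem result :
    (∀ (h g : ℝ → ℝ → ℝ) (a b p q l : ℝ), GridBilinear h → GridBilinear g → p * q ≤ a * b →
      (p * q = a * b ∨ ∃ σ, Mixed σ (4 * Real.sqrt (p * q)) g) →
      RankOneConvex (Energy h g a b p q l) → Quasiconvex (Energy h g a b p q l)) ∧
    (∃ (h : ℝ → ℝ → ℝ) (c : ℝ), GridBilinear h ∧ RankOneConvex (Energy h (fun _ _ => 0) c c c c 0) ∧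
      ¬ Polyconvex (Energy h (fun _ _ => 0) c c c c 0)) ∧
    (∀ (h g : ℝ → ℝ → ℝ) (a b p q l : ℝ), GridBilinear h → GridBilinear g →
      (RankOneConvex (Energy h g a b p q l) ↔
        0 ≤ a ∧ 0 ≤ b ∧ 0 ≤ p ∧ 0 ≤ q ∧ SepConvex h ∧ SepConvex g ∧ ∃ σ r : ℝ, Mixed σ r g ∧
          Mixed (-σ) (2 * (Real.sqrt (a * b) + Real.sqrt (p * q)) - r) h)) ∧
    ∀ (h g : ℝ → ℝ → ℝ) (a b p q l : ℝ), 0 ≤ a → 0 ≤ b → 0 ≤ p → 0 ≤ q → p * q ≤ a * b →
      SepConvex h → SepConvex g → (∃ σ r : ℝ, r ≤ 4 * Real.sqrt (p * q) ∧ Mixed σ r g ∧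
          Mixed (-σ) (2 * (Real.sqrt (a * b) + Real.sqrt (p * q)) - r) h) →
        Quasiconvex (Energy h g a b p q l) := by
  refine ⟨fun h g a b p q l hGh hGg hle hor hroc => ?_, ?_, fun h g a b p q l hGh hGg => ?_,
    fun h g a b p q l ha hb hp hq hle hsh hsg hσ => ?_⟩
  · exact Helper95.MQ.two_main hGh hGg hle hor hroc
  · have e : Energy Helper95.MQ.hx (fun _ _ => 0) (1 / 4) (1 / 4) (1 / 4) (1 / 4) 0
        = Helper95.MQ.Wx := by
      funext F
      simp only [Energy, Helper95.MQ.Wx, Helper95.MQ.En]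
      ring
    refine ⟨Helper95.MQ.hx, 1 / 4,
      ⟨fun i => (i : ℝ), fun j => (j : ℝ), Int.cast_strictMono, Int.cast_strictMono, fun x => ?_,
        fun y => ?_, Helper95.MQ.hx_grid⟩, ?_, ?_⟩
    · exact ⟨⌊x⌋, Int.floor_le x, by push_cast; exact (Int.lt_floor_add_one x).le⟩
    · exact ⟨⌊y⌋, Int.floor_le y, by push_cast; exact (Int.lt_floor_add_one y).le⟩
    · rw [e]
      exact Helper95.MQ.Wx_roc
    · rw [e]
      rintro ⟨P, h0, h1, h2⟩
      exact Helper95.MQ.Wx_not_poly ⟨P, h0, h1, h2⟩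
  · constructor
    · intro hroc
      obtain ⟨ha, hb, hp, hq, hsh, hsg, σ, r, hmg, hmh, -⟩ :=
        Helper95.MQ.grid_roc2 (l := l) hGh hGg hroc
      exact ⟨ha, hb, hp, hq, hsh, hsg, σ, r, hmg, hmh⟩
    · rintro ⟨ha, hb, hp, hq, hsh, hsg, σ, r, hmg, hmh⟩
      exact Helper95.MQ.two_roc l ha hb hp hq hsh hsg hmg hmh
  · obtain ⟨σ, r, hr, hmg, hmh⟩ := hσ
    exact Helper95.MQ.fin_two l ha hb hp hq hle hsh hsg hr hmg hmh

end Pool.Agent.Results.MP_515557_an.DiagonalPlusAntidiagonal
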