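import Pool.Agent.Helper27.MQ.Fin

/-!
# Morrey's problem for `W(F) = g(αᵀ F, det F) + Q(F) + L(F)` on real `2 × 2` matrices

`α` is a vector, `g` an arbitrary function of the vector `αᵀ F` (for instance of the first row of
`F`, the gradient of the first component of a map) and of the determinant, `Q` an arbitrary
quadratic form and `L` an arbitrary linear form of the matrix.  Every rank-one convex function of
this form is quasiconvex.  There are rank-one convex functions of this form (even with `g` not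
depending on the determinant) which are not polyconvex.

Proof: `g` is convex in the determinant, and by partial conjugation `W` is the supremum of the
rank-one convex functions `h(αᵀ F) + l det F + Q(F) + L(F)` below `W`, so one may assume that `g`
is a function `h` of the row, and `h` may be taken smooth.  Let `x = ∇u₁` be the row, let `K` be the
quadratic form of the other row, let `M(x, y)` be the mixed part of `Q`, and
`S = D²u₁`, `T = D²u₂`.  Along the anisotropic heat flow `∂ₜ u = div (K ∇ u)` the integral of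
`W(F₀ + Du)` decreases: the dissipation is the integral of
`2 (K : T + (1/2) M : S)² + tr (K S H(x) S) - (1/2) (M : S)² + l(x) det S`, up to the null
Lagrangians `det T`, the mixed minors of `S` and `T`, and `l(x) det S` with a measurable function
`l`, and a multiplier `l(x)` for which this is nonnegative exists by the S-lemma for symmetric
matrices.
-/

set_option autoImplicit false

open Matrix

namespace Pool.Agent.Results.MP_515557_an.RowAndDeterminant

/-- Convexity on the segments in rank-one directions. -/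
def RankOneConvex (W : Matrix (Fin 2) (Fin 2) ℝ → ℝ) : Prop :=
  ∀ F H : Matrix (Fin 2) (Fin 2) ℝ, H.rank = 1 → ∀ t : ℝ, 0 ≤ t → t ≤ 1 →
    W ((1 - t) • F + t • (F + H)) ≤ (1 - t) * W F + t * W (F + H)

/-- The inequality of quasiconvexity at all matrices, for all bounded open sets `Ω` and all
Lipschitz maps `ϑ` vanishing off `Ω`. -/
def Quasiconvex (W : Matrix (Fin 2) (Fin 2) ℝ → ℝ) : Prop :=
  ∀ F₀ : Matrix (Fin 2) (Fin 2) ℝ, ∀ Ω : Set (Fin 2 → ℝ),
    IsOpen Ω → Bornology.IsBounded Ω →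
    ∀ ϑ : (Fin 2 → ℝ) → (Fin 2 → ℝ), (∃ K, LipschitzWith K ϑ) →
      (∀ x, x ∉ Ω → ϑ x = 0) →
      W F₀ * (MeasureTheory.volume Ω).toReal ≤
        ∫ x in Ω, W (F₀ + LinearMap.toMatrix'
          ((fderiv ℝ ϑ x : (Fin 2 → ℝ) →L[ℝ] (Fin 2 → ℝ)) :
            (Fin 2 → ℝ) →ₗ[ℝ] (Fin 2 → ℝ)))

/-- `W(F) = P(F, det F)` for a convex function `P` with values in `ℝ ∪ {+∞}`. -/
def Polyconvex (W : Matrix (Fin 2) (Fin 2) ℝ → ℝ) : Prop :=
  ∃ P : Matrix (Fin 2) (Fin 2) ℝ × ℝ → EReal, (∀ z, P z ≠ ⊥) ∧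
    (∀ z w : Matrix (Fin 2) (Fin 2) ℝ × ℝ, ∀ a b : ℝ, 0 ≤ a → 0 ≤ b → a + b = 1 →
      P (a • z + b • w) ≤ (a : EReal) * P z + (b : EReal) * P w) ∧
    ∀ F, P (F, F.det) = (W F : EReal)

/-- Every rank-one convex function `W(F) = g(αᵀ F, det F) + Q(F) + L(F)` of a real `2 × 2` matrix,
with an arbitrary function `g`, a quadratic form `Q` and a linear form `L`, is quasiconvex; some
rank-one convex functions `h(e₀ᵀ F) + Q(F)` are not polyconvex. -/
theorem result :
    (∀ (α : Fin 2 → ℝ) (g : (Fin 2 → ℝ) → ℝ → ℝ)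
      (Q : QuadraticForm ℝ (Matrix (Fin 2) (Fin 2) ℝ)) (L : Matrix (Fin 2) (Fin 2) ℝ →ₗ[ℝ] ℝ),
      RankOneConvex (fun F => g (α ᵥ* F) F.det + Q F + L F) →
        Quasiconvex (fun F => g (α ᵥ* F) F.det + Q F + L F)) ∧
    ∃ (h : (Fin 2 → ℝ) → ℝ) (Q : QuadraticForm ℝ (Matrix (Fin 2) (Fin 2) ℝ)),
      RankOneConvex (fun F => h (![1, 0] ᵥ* F) + Q F) ∧
        ¬ Polyconvex (fun F => h (![1, 0] ᵥ* F) + Q F) := by
  refine ⟨fun α g Q L hroc => Pool.Agent.Helper27.MQ.fin_rowdet Q L α g hroc,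
    fun v => N555.MQ.kk (v 0) (v 1),
    N555.MQ.QE.comp (Matrix.transposeLinearEquiv (Fin 2) (Fin 2) ℝ ℝ).toLinearMap, ?_, ?_⟩
  · have e : (fun F : Matrix (Fin 2) (Fin 2) ℝ =>
        (fun v : Fin 2 → ℝ => N555.MQ.kk (v 0) (v 1)) (![1, 0] ᵥ* F)
          + N555.MQ.QE.comp (Matrix.transposeLinearEquiv (Fin 2) (Fin 2) ℝ ℝ).toLinearMap F)
        = fun F => N555.MQ.WE Fᵀ := by
      funext F
      rw [← N555.MQ.WE_eq, Matrix.mulVec_transpose]
      rfl
    rw [e]
    intro F H hH t ht0 ht1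
    have hH' : Hᵀ.det = 0 := by
      rw [Matrix.det_transpose]
      exact Pool.Agent.Helper188.Morrey.det_eq_zero_of_rank hH.le
    have h1 := N555.MQ.WE_roc Fᵀ Hᵀ hH' t ht0 ht1
    rw [← Matrix.transpose_add, ← Matrix.transpose_smul, ← Matrix.transpose_smul,
      ← Matrix.transpose_add] at h1
    exact h1
  · have e : (fun F : Matrix (Fin 2) (Fin 2) ℝ =>
        (fun v : Fin 2 → ℝ => N555.MQ.kk (v 0) (v 1)) (![1, 0] ᵥ* F)
          + N555.MQ.QE.comp (Matrix.transposeLinearEquiv (Fin 2) (Fin 2) ℝ ℝ).toLinearMap F)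
        = fun F => N555.MQ.WE Fᵀ := by
      funext F
      rw [← N555.MQ.WE_eq, Matrix.mulVec_transpose]
      rfl
    rw [e]
    rintro ⟨P, h0, h1, h2⟩
    refine N555.MQ.WE_not_poly ⟨fun z => P (z.1ᵀ, z.2), fun z => h0 _, ?_, ?_⟩
    · intro z w a b ha hb hab
      have h3 := h1 (z.1ᵀ, z.2) (w.1ᵀ, w.2) a b ha hb hab
      refine le_of_eq_of_le ?_ h3
      congr 1
    · intro F
      have h3 := h2 Fᵀ
      simp only [Matrix.det_transpose, Matrix.transpose_transpose] at h3
      exact h3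

end Pool.Agent.Results.MP_515557_an.RowAndDeterminant
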