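import Pool.Agent.Helper27.MQ.ConfFin
import Pool.Agent.Helper27.MQ.ConfEx

/-!
# Morrey's problem for `W(F) = h(π F) + Q(F) + L(F) + f(det F)` with `det` definite on `ker π`

`π` is a linear map from the real `2 × 2` matrices to the plane on whose kernel the determinant
vanishes only at the zero matrix (after a linear change of the variables, `π F` is the conformal
part `(F₀₀ + F₁₁, F₁₀ - F₀₁)` of `F`), `h` is an arbitrary function on the plane, `Q` is a
quadratic form which on the kernel of `π` is a multiple of the determinant, `L` is a linear form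
and `f` a convex function of one variable.  Every rank-one convex function of this form is
quasiconvex.  There are rank-one convex functions of this form (even with `L = 0` and `f = 0`)
which are not polyconvex.

Proof: a convex function of the determinant is dealt with by its tangents (along a rank-one line
through a suitable matrix with the given conformal part the determinant is constant), and `h` may
be taken smooth.  In the coordinates `w` (conformal part) and `v` (anticonformal part) one has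
`4 det = |w|² - |v|²` and `Q = q(w) + b(w, v) + K |v|²`.  Along the heat flow the integral of
`W(F₀ + Du)` decreases: up to null Lagrangians the derivatives of `v` are those of `w`, rotated by
`90` degrees, so that the dissipation is a quadratic form of the derivatives of `w` alone; it is
nonnegative up to `l(w) det (Dw)` exactly if it is nonnegative on the singular matrices, and this
is the rank-one convexity.
-/

set_option autoImplicit false

open Matrix

namespace Pool.Agent.Results.MP_515557_an.TwoFunctionalsDefinite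

/-- Convexity on the segments in rank-one directions. -/
def RankOneConvex (W : Matrix (Fin 2) (Fin 2) ℝ → ℝ) : Prop :=
  ∀ F H : Matrix (Fin 2) (Fin 2) ℝ, H.rank = 1 → ∀ t : ℝ, 0 ≤ t → t ≤ 1 →
    W ((1 - t) • F + t • (F + H)) ≤ (1 - t) * W F + t * W (F + H)

/-- The inequality of quasiconvexity at all matrices, for all bounded open sets `Ω` and all
Lipschitz maps `ϑ` vanishing off `Ω`. -/
def Quasiconvex (W : Matrix (Fin 2) (Fin 2) ℝ → ℝ) : Prop :=
  ∀ F₀ : Matrix (Fin 2) (Fin 2) ℝ, ∀ Ω : Set (Fin 2 → ℝ),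
    IsOpen Ω → Bornology.IsBounded Ω →
    ∀ ϑ : (Fin 2 → ℝ) → (Fin 2 → ℝ), (∃ K, LipschitzWith K ϑ) →
      (∀ x, x ∉ Ω → ϑ x = 0) →
      W F₀ * (MeasureTheory.volume Ω).toReal ≤
        ∫ x in Ω, W (F₀ + LinearMap.toMatrix'
          ((fderiv ℝ ϑ x : (Fin 2 → ℝ) →L[ℝ] (Fin 2 → ℝ)) :
            (Fin 2 → ℝ) →ₗ[ℝ] (Fin 2 → ℝ)))

/-- `W(F) = P(F, det F)` for a convex function `P` with values in `ℝ ∪ {+∞}`. -/
def Polyconvex (W : Matrix (Fin 2) (Fin 2) ℝ → ℝ) : Prop :=
  ∃ P : Matrix (Fin 2) (Fin 2) ℝ × ℝ → EReal, (∀ z, P z ≠ ⊥) ∧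
    (∀ z w : Matrix (Fin 2) (Fin 2) ℝ × ℝ, ∀ a b : ℝ, 0 ≤ a → 0 ≤ b → a + b = 1 →
      P (a • z + b • w) ≤ (a : EReal) * P z + (b : EReal) * P w) ∧
    ∀ F, P (F, F.det) = (W F : EReal)

/-- The pair of a linear map `π` to the plane and a quadratic form `Q` is admissible if the
determinant does not vanish on the nonzero matrices of the kernel of `π` and `Q` is a multiple of
the determinant on this kernel. -/
def Admissible (π : Matrix (Fin 2) (Fin 2) ℝ →ₗ[ℝ] (Fin 2 → ℝ))
    (Q : QuadraticForm ℝ (Matrix (Fin 2) (Fin 2) ℝ)) : Prop :=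
  (∀ N, π N = 0 → N ≠ 0 → N.det ≠ 0) ∧ ∃ k : ℝ, ∀ N, π N = 0 → Q N = k * N.det

/-- the conformal part, as a linear map -/
noncomputable def cpart : Matrix (Fin 2) (Fin 2) ℝ →ₗ[ℝ] (Fin 2 → ℝ) where
  toFun F := ![F 0 0 + F 1 1, F 1 0 - F 0 1]
  map_add' F G := by
    ext i
    fin_cases i <;> simp <;> ring
  map_smul' c F := by
    ext i
    fin_cases i <;> simp <;> ring

/-- an entry, as a linear form -/
def entry (i j : Fin 2) : Matrix (Fin 2) (Fin 2) ℝ →ₗ[ℝ] ℝ where
  toFun F := F i j
  map_add' _ _ := rfl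
  map_smul' _ _ := rfl

theorem entry_apply (i j : Fin 2) (F : Matrix (Fin 2) (Fin 2) ℝ) : entry i j F = F i j := rfl

/-- the quadratic form `2 w₀ v₀ + v₀² + v₁²` of the example -/
noncomputable def qex : QuadraticForm ℝ (Matrix (Fin 2) (Fin 2) ℝ) :=
  (2 : ℝ) • QuadraticMap.linMulLin (entry 0 0 + entry 1 1) (entry 0 0 - entry 1 1)
    + QuadraticMap.linMulLin (entry 0 0 - entry 1 1) (entry 0 0 - entry 1 1)
    + QuadraticMap.linMulLin (entry 1 0 + entry 0 1) (entry 1 0 + entry 0 1)

theorem qex_apply (F : Matrix (Fin 2) (Fin 2) ℝ) : qex F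
    = 2 * ((F 0 0 + F 1 1) * (F 0 0 - F 1 1)) + ((F 0 0 - F 1 1) ^ 2 + (F 1 0 + F 0 1) ^ 2) := by
  simp only [qex, _root_.add_apply, _root_.smul_apply, QuadraticMap.linMulLin_apply,
    LinearMap.add_apply, LinearMap.sub_apply, entry_apply, smul_eq_mul]
  ring

/-- Every rank-one convex function `W(F) = h(π F) + Q(F) + L(F) + f(det F)` of a real `2 × 2`
matrix, with an admissible pair `π`, `Q`, an arbitrary function `h`, a linear form `L` and a convex
function `f`, is quasiconvex; some rank-one convex functions `h(π F) + Q(F)` with an admissible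
pair are not polyconvex. -/
theorem result :
    (∀ (π : Matrix (Fin 2) (Fin 2) ℝ →ₗ[ℝ] (Fin 2 → ℝ))
      (Q : QuadraticForm ℝ (Matrix (Fin 2) (Fin 2) ℝ)), Admissible π Q →
      ∀ (h : (Fin 2 → ℝ) → ℝ) (L : Matrix (Fin 2) (Fin 2) ℝ →ₗ[ℝ] ℝ) (f : ℝ → ℝ),
      ConvexOn ℝ Set.univ f →
      RankOneConvex (fun F => h (π F) + Q F + L F + f F.det) →
        Quasiconvex (fun F => h (π F) + Q F + L F + f F.det)) ∧
    ∃ (π : Matrix (Fin 2) (Fin 2) ℝ →ₗ[ℝ] (Fin 2 → ℝ))
      (Q : QuadraticForm ℝ (Matrix (Fin 2) (Fin 2) ℝ)) (h : (Fin 2 → ℝ) → ℝ),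
      Admissible π Q ∧ RankOneConvex (fun F => h (π F) + Q F) ∧
        ¬ Polyconvex (fun F => h (π F) + Q F) := by
  refine ⟨fun π Q hA h L f hf hroc => ?_, cpart, qex, fun v => Helper27.MQ.kC (v 0) (v 1), ?_, ?_,
    ?_⟩
  · obtain ⟨hπ, k, hQ⟩ := hA
    exact Helper27.MQ.fin_conf π hπ h f hf Q L k hQ hroc
  · have hker : ∀ N : Matrix (Fin 2) (Fin 2) ℝ, cpart N = 0 → N 1 1 = - N 0 0 ∧ N 1 0 = N 0 1 := by
      intro N hN
      have h0 := congrFun hN 0
      have h1 := congrFun hN 1
      simp only [cpart, LinearMap.coe_mk, AddHom.coe_mk, Matrix.cons_val_zero,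
        Matrix.cons_val_one, Pi.zero_apply] at h0 h1
      exact ⟨by linarith, by linarith⟩
    refine ⟨fun N hN h0 hd => h0 ?_, -4, fun N hN => ?_⟩
    · obtain ⟨h1, h2⟩ := hker N hN
      rw [Matrix.det_fin_two, h1, h2] at hd
      have k0 : N 0 0 = 0 := by nlinarith [sq_nonneg (N 0 0), sq_nonneg (N 0 1)]
      have k1 : N 0 1 = 0 := by nlinarith [sq_nonneg (N 0 0), sq_nonneg (N 0 1)]
      ext i j
      fin_cases i <;> fin_cases j
      · simpa using k0
      · simpa using k1
      · simpa using h2.trans k1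
      · simpa using h1.trans (by rw [k0, neg_zero])
    · obtain ⟨h1, h2⟩ := hker N hN
      rw [qex_apply, Matrix.det_fin_two, h1, h2]
      ring
  · have e : (fun F : Matrix (Fin 2) (Fin 2) ℝ =>
        (fun v : Fin 2 → ℝ => Helper27.MQ.kC (v 0) (v 1)) (cpart F) + qex F)
        = fun F => Helper27.MQ.WC F := by
      funext F
      rw [qex_apply]
      simp only [cpart, LinearMap.coe_mk, AddHom.coe_mk, Matrix.cons_val_zero,
        Matrix.cons_val_one, Helper27.MQ.WC, Helper27.MQ.wC]
      ring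
    rw [e]
    intro F H hH t ht0 ht1
    exact Helper27.MQ.WC_roc F H (Helper188.Morrey.det_eq_zero_of_rank hH.le) t ht0 ht1
  · have e : (fun F : Matrix (Fin 2) (Fin 2) ℝ =>
        (fun v : Fin 2 → ℝ => Helper27.MQ.kC (v 0) (v 1)) (cpart F) + qex F)
        = fun F => Helper27.MQ.WC F := by
      funext F
      rw [qex_apply]
      simp only [cpart, LinearMap.coe_mk, AddHom.coe_mk, Matrix.cons_val_zero,
        Matrix.cons_val_one, Helper27.MQ.WC, Helper27.MQ.wC]
      ring
    rw [e]
    rintro ⟨P, h0, h1, h2⟩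
    exact Helper27.MQ.WC_not_poly ⟨P, h0, h1, h2⟩

end Pool.Agent.Results.MP_515557_an.TwoFunctionalsDefinite
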